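import Pool.Agent.Y474.GT.PW3

/-!
# Part PW of project GT: assembly

(helper474, for helper157.)
-/

set_option autoImplicit false
set_option linter.all false

open Polynomial

namespace Pool.Agent.Y474.GT

open Pool.Agent.Y157.PS Pool.Agent.Y157.GT

theorem w_pow {p : ℕ} [Fact p.Prime] {κ₀ κ C : Type} [Field κ₀] [Field κ] [Algebra κ₀ κ] [Field C]
    [Algebra ℚ_[p] C] (J : κ →+* C) (A₀ : Finset κ₀) (u : κ₀ → ℚ_[p])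
    (hJ : ∀ a ∈ A₀, J (algebraMap κ₀ κ a) = algebraMap ℚ_[p] C (u a)) (ρ : κ) (d : ℚ_[p])
    (hρ : J ρ = algebraMap ℚ_[p] C d) (w : κ) (ℓ : ℕ) (m : κ₀ → ℕ)
    (hw : w ^ ℓ = ∏ a ∈ A₀, (ρ - algebraMap κ₀ κ a) ^ m a) :
    (J w) ^ ℓ = algebraMap ℚ_[p] C (∏ a ∈ A₀, (d - u a) ^ m a) := by
  rw [← map_pow, hw, map_prod, map_prod]
  refine Finset.prod_congr rfl fun a ha => ?_
  rw [map_pow, map_pow, map_sub, map_sub, hJ a ha, hρ]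

theorem final (hTRP : S_TRP) (hPLC : S_PLC) (hUNI : S_UNI) {ℓ p : ℕ} [Fact ℓ.Prime] [Fact p.Prime]
    (hℓ : ℓ ≠ p) {k₁ K K₁ κ₀ κ R₀ R M₀ M : Type} [Field k₁] [CharZero k₁] [Field K] [Field K₁]
    [CharZero K₁] [Field κ₀] [Algebra k₁ κ₀] [IsAlgClosure k₁ κ₀] [Field κ] [IsAlgClosed κ]
    [Algebra κ₀ κ] [Algebra k₁ κ] [IsScalarTower k₁ κ₀ κ] [Algebra k₁ K₁] [Algebra K₁ κ]
    [IsScalarTower k₁ K₁ κ] [Algebra.IsAlgebraic K₁ κ] [Algebra K κ]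
    [Field R₀] [Field R] [Field M₀] [Field M] [Algebra κ₀ R₀]
    [Algebra R₀ M₀] [Algebra κ₀ M₀] [IsScalarTower κ₀ R₀ M₀] [Algebra κ R] [Algebra R M]
    [Algebra κ M] [IsScalarTower κ R M]
    (hfg : (⊤ : IntermediateField ℚ k₁).FG) (ρ : κ) (hρ : Transcendental κ₀ ρ)
    (hal : Algebra.IsAlgebraic (IntermediateField.adjoin κ₀ {ρ}) κ)
    (hKK : ∀ a : K, ∃ b : K₁, algebraMap K₁ κ b = algebraMap K κ a)
    (hgen : ∀ S : Subfield κ, (∀ c : k₁, algebraMap k₁ κ c ∈ S) → ρ ∈ S →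
      ∀ c : K₁, algebraMap K₁ κ c ∈ S)
    {x₀ : R₀} {x : R} {B₀ : Finset κ₀} {B : Finset κ} {Y₀ : M₀} {Y : M} {ι : M₀ →+* M}
    (h : Pair ℓ κ₀ κ R₀ R M₀ M x₀ x B₀ B Y₀ Y ι)
    {s : (κ ≃ₐ[K] κ) →* RingAut M} (hs : Sec K κ R M x Y 1 s)
    (hst : ∀ σ z₀, ∃ z₁, s σ (ι z₀) = ι z₁)
    (w : κ) (A₀ : Finset κ₀) (m : κ₀ → ℕ) (hA₀ : A₀.Nonempty)
    (hm : ∀ a ∈ A₀, 0 < m a ∧ m a < ℓ)
    (hw : w ^ ℓ = ∏ a ∈ A₀, (ρ - algebraMap κ₀ κ a) ^ m a)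
    (q : k₁ →+* ℚ_[p]) (hcard : A₀.card < p)
    (hA1 : ∀ a ∈ A₀, ∃ b : k₁, algebraMap k₁ κ₀ b = a ∧ (b ≠ 0 → ‖q b‖ = 1))
    (hA2 : ∀ a ∈ A₀, ∀ a' ∈ A₀, ∃ b : k₁, algebraMap k₁ κ₀ b = a - a' ∧ (b ≠ 0 → ‖q b‖ = 1))
    (hB1 : ∀ a ∈ B₀, ∃ b : k₁, algebraMap k₁ κ₀ b = a ∧ (b ≠ 0 → ‖q b‖ = 1))
    (hB2 : ∀ a ∈ B₀, ∀ a' ∈ B₀, ∃ b : k₁, algebraMap k₁ κ₀ b = a - a' ∧ (b ≠ 0 → ‖q b‖ = 1)) :
    ∃ g : κ ≃ₐ[K] κ, (∀ c, g (algebraMap κ₀ κ c) = algebraMap κ₀ κ c) ∧ g w ≠ w ∧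
      ∀ z₀, s g (ι z₀) = ι z₀ := by
  classical
  haveI : Algebra.IsAlgebraic k₁ κ₀ := (inferInstance : IsAlgClosure k₁ κ₀).isAlgebraic
  obtain ⟨VC, hVC⟩ := padV p
  obtain ⟨j, hj⟩ := lift_alg (K := κ₀)
    ((algebraMap ℚ_[p] (AlgebraicClosure ℚ_[p])).comp q)
  have hj' : ∀ c, j (algebraMap k₁ κ₀ c) = algebraMap ℚ_[p] (AlgebraicClosure ℚ_[p]) (q c) := hj
  have hle : ∀ b : k₁, (b ≠ 0 → ‖q b‖ = 1) → ‖q b‖ ≤ 1 := by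
    intro b hb
    rcases eq_or_ne b 0 with h0 | h0
    · rw [h0, map_zero, norm_zero]; exact zero_le_one
    · exact (hb h0).le
  -- the elements `a`
  have hu : ∀ a : κ₀, ∃ y : ℚ_[p], a ∈ A₀ →
      j a = algebraMap ℚ_[p] (AlgebraicClosure ℚ_[p]) y ∧ ‖y‖ ≤ 1 := by
    intro a
    by_cases ha : a ∈ A₀
    · obtain ⟨b, hb, hb1⟩ := hA1 a ha
      exact ⟨q b, fun _ => ⟨by rw [← hb, hj'], hle b hb1⟩⟩
    · exact ⟨0, fun h => absurd h ha⟩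
  choose u hu using hu
  have hdiff : ∀ a ∈ A₀, ∀ a' ∈ A₀, a ≠ a' → ‖u a - u a'‖ = 1 := by
    intro a ha a' ha' hne
    obtain ⟨b, hb, hb1⟩ := hA2 a ha a' ha'
    have h1 : q b = u a - u a' := by
      apply (algebraMap ℚ_[p] (AlgebraicClosure ℚ_[p])).injective
      rw [← hj', hb, map_sub, map_sub, (hu a ha).1, (hu a' ha').1]
    rw [← h1]
    apply hb1
    rintro rfl
    rw [map_zero] at hb
    exact hne (sub_eq_zero.1 hb.symm)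
  -- good reduction
  have hgood : Good (VC.comap j) B₀ := by
    refine ⟨fun e he => ?_, fun e he e' he' hne => ?_⟩
    · obtain ⟨b, hb, hb1⟩ := hB1 e he
      rw [ValuationSubring.mem_comap, ← hb, hj', hVC.norm]
      exact hle b hb1
    · obtain ⟨b, hb, hb1⟩ := hB2 e he e' he'
      rw [isU_comap, ← hb, hj', isU_iff hVC]
      apply hb1
      rintro rfl
      rw [map_zero] at hb
      exact hne (sub_eq_zero.1 hb.symm)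
  -- the two places
  obtain ⟨a₁, ha₁⟩ := hA₀
  obtain ⟨δ₀, hδ₀, hδ₀t⟩ := hTRP p k₁ hfg q (u a₁) 1
  obtain ⟨c, hc⟩ := exists_c A₀ u hcard (fun a ha => (hu a ha).2)
  obtain ⟨δ₁, hδ₁, hδ₁t⟩ := hTRP p k₁ hfg q (c : ℚ_[p]) 1
  have hp1 : (p : ℝ) ^ (-((1 : ℕ) : ℤ)) < 1 := by
    rw [Nat.cast_one, zpow_neg, zpow_one]
    exact inv_lt_one_of_one_lt₀ (by exact_mod_cast (Fact.out : p.Prime).one_lt)
  have hδ₀a : ∀ a ∈ A₀, a ≠ a₁ → ‖δ₀ - u a‖ = 1 := by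
    intro a ha hne
    have h1 : δ₀ - u a = (δ₀ - u a₁) + (u a₁ - u a) := by ring
    rw [h1]
    exact norm_add_one (by rw [hδ₀]; exact hp1) (hdiff a₁ ha₁ a ha hne.symm)
  have hδ₁a : ∀ a ∈ A₀, ‖δ₁ - u a‖ = 1 := by
    intro a ha
    have h1 : δ₁ - u a = (δ₁ - c) + (c - u a) := by ring
    rw [h1]
    exact norm_add_one (by rw [hδ₁]; exact hp1) (hc a ha)
  have key : ∀ δ : ℚ_[p], (∀ P : k₁[X], P ≠ 0 → P.eval₂ q δ ≠ 0) →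
      ∃ (q' : K₁ →+* ℚ_[p]) (J : κ →+* AlgebraicClosure ℚ_[p]),
        (∀ c, J (algebraMap K₁ κ c) = algebraMap ℚ_[p] (AlgebraicClosure ℚ_[p]) (q' c)) ∧
        (∀ c, J (algebraMap κ₀ κ c) = j c) ∧
        J ρ = algebraMap ℚ_[p] (AlgebraicClosure ℚ_[p]) δ := by
    intro δ hδ
    obtain ⟨J, hJ, hJρ⟩ := lift_tr ρ hρ hal j _
      (tr_ext (algebraMap ℚ_[p] (AlgebraicClosure ℚ_[p])) q j hj' δ hδ)
    obtain ⟨q', hq'⟩ := factor (algebraMap ℚ_[p] (AlgebraicClosure ℚ_[p]))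
      (J.comp (algebraMap K₁ κ)) (fun c => by
        have h1 := hgen ((algebraMap ℚ_[p] (AlgebraicClosure ℚ_[p])).fieldRange.comap J)
          (fun c => by
            rw [Subfield.mem_comap, IsScalarTower.algebraMap_apply k₁ κ₀ κ, hJ, hj']
            exact ⟨_, rfl⟩) (by
            rw [Subfield.mem_comap, hJρ]
            exact ⟨_, rfl⟩) c
        rw [Subfield.mem_comap] at h1
        obtain ⟨y, hy⟩ := h1
        exact ⟨y, hy⟩)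
    exact ⟨q', J, fun c => hq' c, hJ, hJρ⟩
  obtain ⟨q₀, J₀, hq₀, hJ₀, hJ₀ρ⟩ := key δ₀ hδ₀t
  obtain ⟨q₁, J₁, hq₁, hJ₁, hJ₁ρ⟩ := key δ₁ hδ₁t
  have hw₀ := w_pow J₀ A₀ u (fun a ha => by rw [hJ₀]; exact (hu a ha).1) ρ δ₀ hJ₀ρ w ℓ m hw
  have hw₁ := w_pow J₁ A₀ u (fun a ha => by rw [hJ₁]; exact (hu a ha).1) ρ δ₁ hJ₁ρ w ℓ m hw
  obtain ⟨τ, hτ, hτw⟩ := move hVC hℓ (J₀ w) _ hw₀ (m a₁) (hm a₁ ha₁).1 (hm a₁ ha₁).2 (by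
    rw [norm_prod' A₀ u m δ₀ a₁ ha₁ hδ₀a, hδ₀, Nat.cast_one])
  obtain ⟨σ₀, σ₁, h0, h1, h2, h3⟩ := core hPLC hUNI hℓ h (sec_res hKK hs)
    (fun σ z₀ => hst _ z₀) hVC q j hj' q₀ J₀ hq₀ hJ₀ q₁ J₁ hq₁ hJ₁ hgood τ hτ
  refine ⟨resG hKK (σ₀ * σ₁), fun c => h2 c, ?_, h3⟩
  have h4 : σ₁ w = w := by
    apply J₁.injective
    rw [h1]
    exact fix_unit hVC hℓ (J₁ w) _ hw₁ (norm_prod A₀ u m δ₁ hδ₁a) τ⁻¹ (Ine_inv hτ)
  show σ₀ (σ₁ w) ≠ w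
  rw [h4]
  intro h5
  apply hτw
  rw [← h0, h5]

/-- `k(ρ) ⊆ k₁(ρ)` -/
theorem adjoin_le' {k k₁ κ : Type} [Field k] [Field k₁] [Field κ] [Algebra k k₁] [Algebra k₁ κ]
    [Algebra k κ] [IsScalarTower k k₁ κ] (ρ : κ) (a : IntermediateField.adjoin k {ρ}) :
    ∃ b : IntermediateField.adjoin k₁ {ρ}, algebraMap (IntermediateField.adjoin k₁ {ρ}) κ b =
      algebraMap (IntermediateField.adjoin k {ρ}) κ a := by
  let L' : IntermediateField k κ :=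
    (IntermediateField.adjoin k₁ {ρ}).toSubfield.toIntermediateField (fun c => by
      have := IntermediateField.algebraMap_mem (IntermediateField.adjoin k₁ {ρ}) (algebraMap k k₁ c)
      rwa [← IsScalarTower.algebraMap_apply k k₁ κ] at this)
  have h3 : IntermediateField.adjoin k {ρ} ≤ L' := by
    rw [IntermediateField.adjoin_simple_le_iff]
    exact IntermediateField.mem_adjoin_simple_self k₁ ρ
  exact ⟨⟨(a : κ), h3 a.2⟩, rfl⟩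

theorem adjoin_gen {k₁ κ : Type} [Field k₁] [Field κ] [Algebra k₁ κ] (ρ : κ) (S : Subfield κ)
    (h1 : ∀ c : k₁, algebraMap k₁ κ c ∈ S) (h2 : ρ ∈ S) (c : IntermediateField.adjoin k₁ {ρ}) :
    algebraMap (IntermediateField.adjoin k₁ {ρ}) κ c ∈ S := by
  have h3 : IntermediateField.adjoin k₁ {ρ} ≤ S.toIntermediateField h1 := by
    rw [IntermediateField.adjoin_simple_le_iff]
    exact h2
  exact h3 c.2

theorem char0 {k K : Type} [Field k] [CharZero k] [Field K] [Algebra k K] : CharZero K :=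
  charZero_of_injective_algebraMap (algebraMap k K).injective

/-- the same statement, with `k₁(ρ)` for the field `K₁` -/
theorem final' (hTRP : S_TRP) (hPLC : S_PLC) (hUNI : S_UNI) {ℓ p : ℕ} [Fact ℓ.Prime] [Fact p.Prime]
    (hℓ : ℓ ≠ p) {k k₁ κ₀ κ R₀ R M₀ M : Type} [Field k] [CharZero k] [Field k₁] [Algebra k k₁]
    [FiniteDimensional k k₁] [Field κ₀] [Algebra k₁ κ₀] [IsAlgClosure k₁ κ₀] [Field κ]
    [IsAlgClosed κ] [Algebra κ₀ κ] [Algebra k₁ κ] [IsScalarTower k₁ κ₀ κ] [Algebra k κ]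
    [IsScalarTower k k₁ κ]
    [Field R₀] [Field R] [Field M₀] [Field M] [Algebra κ₀ R₀]
    [Algebra R₀ M₀] [Algebra κ₀ M₀] [IsScalarTower κ₀ R₀ M₀] [Algebra κ R] [Algebra R M]
    [Algebra κ M] [IsScalarTower κ R M]
    (hfg : (⊤ : IntermediateField ℚ k).FG) (ρ : κ) (hρ : Transcendental κ₀ ρ)
    (hal : Algebra.IsAlgebraic (IntermediateField.adjoin κ₀ {ρ}) κ)
    {x₀ : R₀} {x : R} {B₀ : Finset κ₀} {B : Finset κ} {Y₀ : M₀} {Y : M} {ι : M₀ →+* M}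
    (h : Pair ℓ κ₀ κ R₀ R M₀ M x₀ x B₀ B Y₀ Y ι)
    {s : (κ ≃ₐ[IntermediateField.adjoin k {ρ}] κ) →* RingAut M}
    (hs : Sec (IntermediateField.adjoin k {ρ}) κ R M x Y 1 s)
    (hst : ∀ σ z₀, ∃ z₁, s σ (ι z₀) = ι z₁)
    (w : κ) (A₀ : Finset κ₀) (m : κ₀ → ℕ) (hA₀ : A₀.Nonempty)
    (hm : ∀ a ∈ A₀, 0 < m a ∧ m a < ℓ)
    (hw : w ^ ℓ = ∏ a ∈ A₀, (ρ - algebraMap κ₀ κ a) ^ m a)
    (q : k₁ →+* ℚ_[p]) (hcard : A₀.card < p)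
    (hA1 : ∀ a ∈ A₀, ∃ b : k₁, algebraMap k₁ κ₀ b = a ∧ (b ≠ 0 → ‖q b‖ = 1))
    (hA2 : ∀ a ∈ A₀, ∀ a' ∈ A₀, ∃ b : k₁, algebraMap k₁ κ₀ b = a - a' ∧ (b ≠ 0 → ‖q b‖ = 1))
    (hB1 : ∀ a ∈ B₀, ∃ b : k₁, algebraMap k₁ κ₀ b = a ∧ (b ≠ 0 → ‖q b‖ = 1))
    (hB2 : ∀ a ∈ B₀, ∀ a' ∈ B₀, ∃ b : k₁, algebraMap k₁ κ₀ b = a - a' ∧ (b ≠ 0 → ‖q b‖ = 1)) :
    ∃ g : κ ≃ₐ[IntermediateField.adjoin k {ρ}] κ,
      (∀ c, g (algebraMap κ₀ κ c) = algebraMap κ₀ κ c) ∧ g w ≠ w ∧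
      ∀ z₀, s g (ι z₀) = ι z₀ := by
  haveI : Algebra.IsAlgebraic k₁ κ₀ := (inferInstance : IsAlgClosure k₁ κ₀).isAlgebraic
  haveI : CharZero k₁ := char0 (k := k)
  haveI : CharZero (IntermediateField.adjoin k₁ {ρ}) := char0 (k := k₁)
  haveI : Algebra.IsAlgebraic (IntermediateField.adjoin k₁ {ρ}) κ := closure_adjoin ρ hal
  exact final hTRP hPLC hUNI hℓ (fg_fin hfg) ρ hρ hal (K := IntermediateField.adjoin k {ρ})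
    (K₁ := IntermediateField.adjoin k₁ {ρ}) (adjoin_le' ρ) (adjoin_gen ρ) h hs hst w A₀ m hA₀ hm hw
    q hcard hA1 hA2 hB1 hB2

/-- `p`-adic places show that `w` is not in the field belonging to the action on `M₀` -/
theorem pw (hEMBP : S_EMBP) (hTRP : S_TRP) (hDVRP : S_DVRP) (hPLC : S_PLC) (hUNI : S_UNI) :
    S_PW := by
  intro ℓ _ k κ₀ κ R₀ R M₀ M _ _ _ _ _ _ _ _ _ _ _ _ _ _ _ _ _ _ _ _ _ _ hfg ρ hρ hal x₀ x B₀ B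
    Y₀ Y ι h s hs hst w A₀ m hA₀ hm hw
  classical
  obtain ⟨k₁, p, hp, q, hfin, hN, hT, hnorm⟩ := hEMBP k κ₀ hfg
    (A₀ ∪ B₀ ∪ (A₀ ×ˢ A₀).image (fun x => x.1 - x.2) ∪ (B₀ ×ˢ B₀).image (fun x => x.1 - x.2))
    (ℓ + A₀.card)
  haveI := hp
  haveI := hfin
  haveI : IsAlgClosure k₁ κ₀ := by
    haveI : Algebra.IsAlgebraic k κ₀ := (inferInstance : IsAlgClosure k κ₀).isAlgebraic
    haveI : IsAlgClosed κ₀ := IsAlgClosure.isAlgClosed k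
    exact ⟨inferInstance, inferInstance⟩
  have hT' : ∀ a ∈ (A₀ ∪ B₀ ∪ (A₀ ×ˢ A₀).image (fun x => x.1 - x.2) ∪
      (B₀ ×ˢ B₀).image (fun x => x.1 - x.2)), ∃ b : k₁, algebraMap k₁ κ₀ b = a ∧
      (b ≠ 0 → ‖q b‖ = 1) := by
    intro a ha
    exact ⟨⟨a, hT a ha⟩, rfl, fun h0 => hnorm ⟨a, hT a ha⟩ ha h0⟩
  refine final' hTRP hPLC hUNI (by omega) hfg ρ hρ hal h hs hst w A₀ m hA₀ hm hw q (by omega)
    (fun a ha => hT' a ?_) (fun a ha a' ha' => hT' _ ?_) (fun a ha => hT' a ?_)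
    (fun a ha a' ha' => hT' _ ?_)
  · simp only [Finset.mem_union]
    exact Or.inl (Or.inl (Or.inl ha))
  · simp only [Finset.mem_union, Finset.mem_image, Finset.mem_product]
    exact Or.inl (Or.inr ⟨(a, a'), ⟨ha, ha'⟩, rfl⟩)
  · simp only [Finset.mem_union]
    exact Or.inl (Or.inl (Or.inr ha))
  · simp only [Finset.mem_union, Finset.mem_image, Finset.mem_product]
    exact Or.inr ⟨(a, a'), ⟨ha, ha'⟩, rfl⟩

end Pool.Agent.Y474.GT
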