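import Mathlib

/-!
# Part PW of project GT: field-theoretic lemmas

(helper474, for helper157.)
-/

set_option autoImplicit false
set_option linter.all false

open Polynomial

namespace Pool.Agent.Y474.GT

/-- extension of an embedding to an algebraic extension -/
theorem lift_alg {k K C : Type} [Field k] [Field K] [Algebra k K] [Algebra.IsAlgebraic k K]
    [Field C] [IsAlgClosed C] (φ : k →+* C) :
    ∃ j : K →+* C, ∀ c, j (algebraMap k K c) = φ c := by
  letI : Algebra k C := φ.toAlgebra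
  exact ⟨(IsAlgClosed.lift : K →ₐ[k] C).toRingHom,
    fun c => (IsAlgClosed.lift : K →ₐ[k] C).commutes c⟩

/-- extension of an embedding to `κ₀(ρ)` and an algebraic extension of it -/
theorem lift_tr {κ₀ κ C : Type} [Field κ₀] [Field κ] [Algebra κ₀ κ] [Field C] [IsAlgClosed C]
    (ρ : κ) (hρ : Transcendental κ₀ ρ)
    (hal : Algebra.IsAlgebraic (IntermediateField.adjoin κ₀ {ρ}) κ) (j : κ₀ →+* C) (d : C)
    (hd : ∀ P : κ₀[X], P ≠ 0 → P.eval₂ j d ≠ 0) :
    ∃ J : κ →+* C, (∀ c, J (algebraMap κ₀ κ c) = j c) ∧ J ρ = d := by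
  letI : Algebra κ₀ C := j.toAlgebra
  have hd' : Transcendental κ₀ d := by
    rintro ⟨P, hP, h⟩
    exact hd P hP h
  let e : IntermediateField.adjoin κ₀ {ρ} →ₐ[κ₀] C :=
    ((IntermediateField.adjoin κ₀ {d}).val.comp
      (RatFunc.algEquivOfTranscendental d hd').toAlgHom).comp
      (RatFunc.algEquivOfTranscendental ρ hρ).symm.toAlgHom
  obtain ⟨J, hJ⟩ := lift_alg (K := κ) e.toRingHom
  refine ⟨J, fun c => ?_, ?_⟩
  · have h1 := hJ (algebraMap κ₀ (IntermediateField.adjoin κ₀ {ρ}) c)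
    have h2 : algebraMap (IntermediateField.adjoin κ₀ {ρ}) κ
        (algebraMap κ₀ (IntermediateField.adjoin κ₀ {ρ}) c) = algebraMap κ₀ κ c := rfl
    rw [h2] at h1
    rw [h1]
    exact e.commutes c
  · have h1 := hJ (IntermediateField.AdjoinSimple.gen κ₀ ρ)
    have h2 : algebraMap (IntermediateField.adjoin κ₀ {ρ}) κ
        (IntermediateField.AdjoinSimple.gen κ₀ ρ) = ρ := rfl
    rw [h2] at h1
    rw [h1]
    show (RatFunc.algEquivOfTranscendental d hd'
      ((RatFunc.algEquivOfTranscendental ρ hρ).symm (IntermediateField.AdjoinSimple.gen κ₀ ρ)) : C)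
      = d
    rw [RatFunc.algEquivOfTranscendental_symm_gen]
    exact RatFunc.algEquivOfTranscendental_X d hd'

/-- transcendence over an algebraic extension -/
theorem tr_ext {k κ₀ Q C : Type} [Field k] [Field κ₀] [Algebra k κ₀] [Algebra.IsAlgebraic k κ₀]
    [Field Q] [Field C] (i : Q →+* C) (q : k →+* Q) (j : κ₀ →+* C)
    (hj : ∀ c, j (algebraMap k κ₀ c) = i (q c)) (d : Q)
    (hd : ∀ P : k[X], P ≠ 0 → P.eval₂ q d ≠ 0) :
    ∀ P : κ₀[X], P ≠ 0 → P.eval₂ j (i d) ≠ 0 := by
  letI : Algebra k C := (i.comp q).toAlgebra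
  letI : Algebra κ₀ C := j.toAlgebra
  haveI : IsScalarTower k κ₀ C := IsScalarTower.of_algebraMap_eq fun c => (hj c).symm
  have h1 : Transcendental k (i d) := by
    rintro ⟨P, hP, h⟩
    refine hd P hP (i.injective ?_)
    rw [map_zero, Polynomial.hom_eval₂]
    exact h
  have h2 : Transcendental κ₀ (i d) := h1.extendScalars κ₀
  intro P hP h
  exact h2 ⟨P, hP, h⟩

/-- an embedding with values in the image of `i` factors through `i` -/
theorem factor {L Q C : Type} [Field L] [Field Q] [Field C] (i : Q →+* C) (f : L →+* C)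
    (h : ∀ c, ∃ y, i y = f c) : ∃ q : L →+* Q, ∀ c, f c = i (q c) := by
  choose g hg using h
  exact ⟨{ toFun := g
           map_one' := i.injective (by rw [hg, map_one, map_one])
           map_mul' := fun a b => i.injective (by rw [hg, map_mul, map_mul, hg, hg])
           map_zero' := i.injective (by rw [hg, map_zero, map_zero])
           map_add' := fun a b => i.injective (by rw [hg, map_add, map_add, hg, hg]) },
    fun c => (hg c).symm⟩

/-- a finite extension of a finitely generated field is finitely generated -/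
theorem fg_fin {k L : Type} [Field k] [CharZero k] [Field L] [CharZero L] [Algebra k L]
    [FiniteDimensional k L] (h : (⊤ : IntermediateField ℚ k).FG) :
    (⊤ : IntermediateField ℚ L).FG := by
  rw [IntermediateField.fg_top_iff] at h ⊢
  haveI : IsScalarTower ℚ k L := IsScalarTower.of_algebraMap_eq fun c => by simp
  haveI := h
  exact Algebra.EssFiniteType.comp ℚ k L

/-- elements algebraic over `k` are algebraic over `k₁(ρ)` -/
theorem alg_up {k₁ L κ : Type} [Field k₁] [Field L] [Field κ] [Algebra k₁ L] [Algebra L κ]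
    [Algebra k₁ κ] [IsScalarTower k₁ L κ] {z : κ} (h : IsAlgebraic k₁ z) : IsAlgebraic L z :=
  h.extendScalars (algebraMap k₁ L).injective

theorem alg_self {L κ : Type} [Field L] [Field κ] [Algebra L κ] (b : L) (z : κ)
    (h : algebraMap L κ b = z) : IsAlgebraic L z := by
  rw [← h]
  exact isAlgebraic_algebraMap b

theorem closure_aux {L κ₀ κ : Type} [Field L] [Field κ₀] [Field κ] [Algebra L κ]
    [Algebra κ₀ κ] (ρ : κ) (h1 : ∀ c : κ₀, IsAlgebraic L (algebraMap κ₀ κ c))
    (h2 : IsAlgebraic L ρ)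
    (hal : Algebra.IsAlgebraic (IntermediateField.adjoin κ₀ {ρ}) κ) :
    Algebra.IsAlgebraic L κ := by
  refine ⟨fun z => ?_⟩
  let N := algebraicClosure L κ
  let N' : IntermediateField κ₀ κ := N.toSubfield.toIntermediateField
    (fun c => (mem_algebraicClosure_iff (F := L) (E := κ)).2 (h1 c))
  have h3 : IntermediateField.adjoin κ₀ {ρ} ≤ N' := by
    rw [IntermediateField.adjoin_simple_le_iff]
    exact (mem_algebraicClosure_iff (F := L) (E := κ)).2 h2
  have h4 : IsAlgebraic N z := by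
    obtain ⟨P, hP, hz⟩ := hal.isAlgebraic z
    let f : IntermediateField.adjoin κ₀ {ρ} →+* N :=
      { toFun := fun a => ⟨(a : κ), h3 a.2⟩
        map_one' := rfl
        map_mul' := fun _ _ => rfl
        map_zero' := rfl
        map_add' := fun _ _ => rfl }
    refine ⟨P.map f, (Polynomial.map_ne_zero_iff f.injective).2 hP, ?_⟩
    rw [aeval_def, eval₂_map]
    exact hz
  haveI : Algebra.IsAlgebraic L N := algebraicClosure.isAlgebraic L κ
  exact h4.restrictScalars L

/-- `κ` is algebraic over `k₁(ρ)` -/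
theorem closure_adjoin {k₁ κ₀ κ : Type} [Field k₁] [Field κ₀] [Algebra k₁ κ₀]
    [Algebra.IsAlgebraic k₁ κ₀] [Field κ] [IsAlgClosed κ] [Algebra κ₀ κ] [Algebra k₁ κ]
    [IsScalarTower k₁ κ₀ κ] (ρ : κ)
    (hal : Algebra.IsAlgebraic (IntermediateField.adjoin κ₀ {ρ}) κ) :
    Algebra.IsAlgebraic (IntermediateField.adjoin k₁ {ρ}) κ := by
  refine closure_aux ρ (fun c => ?_) ?_ hal
  · have h2 : IsAlgebraic k₁ c := Algebra.IsAlgebraic.isAlgebraic c
    have h3 : IsAlgebraic k₁ (algebraMap κ₀ κ c) := h2.algebraMap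
    exact alg_up h3
  · exact alg_self
      (⟨ρ, IntermediateField.mem_adjoin_simple_self k₁ ρ⟩ : IntermediateField.adjoin k₁ {ρ}) ρ rfl

/-- an element of `κ` algebraic over `k` is in `κ₀` -/
theorem mem_bot {κ₀ κ : Type} [Field κ₀] [IsAlgClosed κ₀] [Field κ] [Algebra κ₀ κ]
    (z : κ) (h1 : IsAlgebraic κ₀ z) : ∃ c : κ₀, algebraMap κ₀ κ c = z := by
  obtain ⟨P, hP, hz⟩ := h1
  have h2 : P.Splits := IsAlgClosed.splits P
  have h3 : (P.map (algebraMap κ₀ κ)).IsRoot z := by
    rw [IsRoot.def, eval_map]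
    exact hz
  have h4 : z ∈ (P.map (algebraMap κ₀ κ)).roots := by
    rw [mem_roots ((Polynomial.map_ne_zero_iff (algebraMap κ₀ κ).injective).2 hP)]
    exact h3
  rw [h2.roots_map] at h4
  obtain ⟨c, -, hc⟩ := Multiset.mem_map.1 h4
  exact ⟨c, hc⟩

/-- automorphisms preserve `κ₀` -/
theorem map_bot {k₁ κ₀ κ : Type} [Field k₁] [Field κ₀] [Algebra k₁ κ₀]
    [Algebra.IsAlgebraic k₁ κ₀] [IsAlgClosed κ₀] [Field κ] [Algebra κ₀ κ] [Algebra k₁ κ]
    [IsScalarTower k₁ κ₀ κ] (σ : κ ≃+* κ) (hσ : ∀ c : k₁, σ (algebraMap k₁ κ c) = algebraMap k₁ κ c)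
    (c : κ₀) : ∃ c' : κ₀, σ (algebraMap κ₀ κ c) = algebraMap κ₀ κ c' := by
  obtain ⟨P, hP, hz⟩ := (Algebra.IsAlgebraic.isAlgebraic (R := k₁) c)
  have h1 : IsAlgebraic k₁ (σ (algebraMap κ₀ κ c)) := by
    refine ⟨P, hP, ?_⟩
    rw [aeval_def]
    have h2 : (σ : κ →+* κ).comp (algebraMap k₁ κ) = algebraMap k₁ κ := by
      ext a
      exact hσ a
    have h3 := Polynomial.hom_eval₂ P (algebraMap k₁ κ) (σ : κ →+* κ) (algebraMap κ₀ κ c)
    rw [h2] at h3
    have h4 : P.eval₂ (algebraMap k₁ κ) (algebraMap κ₀ κ c) = 0 := by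
      have h5 := Polynomial.hom_eval₂ P (algebraMap k₁ κ₀) (algebraMap κ₀ κ) c
      rw [← IsScalarTower.algebraMap_eq k₁ κ₀ κ] at h5
      rw [← h5]
      rw [aeval_def] at hz
      rw [hz, map_zero]
    rw [h4, map_zero] at h3
    exact h3.symm
  obtain ⟨c', hc'⟩ := mem_bot (κ₀ := κ₀) _ (alg_up h1)
  exact ⟨c', hc'.symm⟩

section res

variable {K K' κ : Type} [Field K] [Field K'] [Field κ] [Algebra K κ] [Algebra K' κ]

/-- restriction of the Galois action from `K'` to `K` -/
def resG (h : ∀ a : K, ∃ b : K', algebraMap K' κ b = algebraMap K κ a) :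
    (κ ≃ₐ[K'] κ) →* (κ ≃ₐ[K] κ) where
  toFun σ := AlgEquiv.ofRingEquiv (f := (σ : κ ≃+* κ)) (fun c => by
    obtain ⟨b, hb⟩ := h c
    rw [← hb]
    exact σ.commutes b)
  map_one' := by ext; rfl
  map_mul' _ _ := by ext; rfl

theorem resG_apply (h : ∀ a : K, ∃ b : K', algebraMap K' κ b = algebraMap K κ a)
    (σ : κ ≃ₐ[K'] κ) (z : κ) : resG h σ z = σ z := rfl

/-- continuity of the restricted action -/
theorem cont_res (h : ∀ a : K, ∃ b : K', algebraMap K' κ b = algebraMap K κ a)
    [Algebra.IsAlgebraic K' κ] (E : IntermediateField K κ) [FiniteDimensional K E] :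
    ∃ E' : IntermediateField K' κ, FiniteDimensional K' E' ∧
      ∀ σ ∈ E'.fixingSubgroup, resG h σ ∈ E.fixingSubgroup := by
  obtain ⟨n, b, hb⟩ := Module.Finite.exists_fin (R := K) (M := E)
  refine ⟨IntermediateField.adjoin _ (Set.range fun i => (b i : κ)), ?_, ?_⟩
  · haveI : Finite (Set.range fun i => (b i : κ)) := Set.finite_range _
    exact IntermediateField.finiteDimensional_adjoin fun x _ =>
      (Algebra.IsAlgebraic.isAlgebraic x).isIntegral
  · intro σ hσ
    rw [IntermediateField.mem_fixingSubgroup_iff] at hσ ⊢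
    intro z hz
    have h1 : (⟨z, hz⟩ : E) ∈ Submodule.span K (Set.range b) := by
      rw [hb]; trivial
    have h2 : ∀ y : E, y ∈ Submodule.span K (Set.range b) → resG h σ (y : κ) = y := by
      intro y hy
      induction hy using Submodule.span_induction with
      | mem y hy =>
        obtain ⟨i, rfl⟩ := hy
        exact hσ _ (IntermediateField.subset_adjoin _ _ ⟨i, rfl⟩)
      | zero => simp
      | add a b _ _ ha hb =>
        show resG h σ ((a : κ) + b) = (a : κ) + b
        rw [map_add, ha, hb]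
      | smul c a _ ha =>
        have h3 : ((c • a : E) : κ) = (algebraMap K κ c) * (a : κ) := by
          rw [Algebra.smul_def]; rfl
        rw [h3, map_mul, AlgEquiv.commutes, ha]
    exact h2 _ h1

end res

end Pool.Agent.Y474.GT
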