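import Pool.Agent.Y474.GT.PW1
import Pool.Agent.Y157.GT.Stm
import Pool.Agent.Y748.PS.W1
import Pool.Agent.Y183.PS.Tau
import Pool.Agent.Y183.PS.Ine
import Pool.Agent.Y809.PS.VAL

/-!
# Part PW of project GT: `p`-adic lemmas

(helper474, for helper157.)
-/

set_option autoImplicit false
set_option linter.all false

open Polynomial

namespace Pool.Agent.Y474.GT

open Pool.Agent.Y157.PS Pool.Agent.Y157.GT

/-- the valuation ring of the algebraic closure of `ℚ_p` -/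
theorem padV (p : ℕ) [Fact p.Prime] :
    ∃ VC : ValuationSubring (AlgebraicClosure ℚ_[p]), PadicV p (AlgebraicClosure ℚ_[p]) VC := by
  obtain ⟨V, hV⟩ := Pool.Agent.Y809.PS.val ℤ_[p] ℚ_[p] (AlgebraicClosure ℚ_[p])
  refine ⟨V, inferInstance, fun z => ?_⟩
  rw [hV]
  have h1 : IsIntegral ℤ_[p] (algebraMap ℚ_[p] (AlgebraicClosure ℚ_[p]) z) ↔
      IsIntegral ℤ_[p] z :=
    isIntegral_algebraMap_iff (algebraMap ℚ_[p] (AlgebraicClosure ℚ_[p])).injective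
  rw [h1, IsIntegrallyClosed.isIntegral_iff]
  constructor
  · rintro ⟨y, rfl⟩
    exact y.2
  · intro h
    exact ⟨⟨z, h⟩, rfl⟩

section

variable {p : ℕ} [Fact p.Prime] {C : Type} [Field C] [Algebra ℚ_[p] C]
  {VC : ValuationSubring C}

theorem isU_iff (h : PadicV p C VC) (z : ℚ_[p]) : IsU VC (algebraMap ℚ_[p] C z) ↔ ‖z‖ = 1 := by
  unfold IsU
  rw [← map_inv₀, h.norm, h.norm, norm_inv]
  constructor
  · rintro ⟨h1, h2, h3⟩
    have h0 : 0 < ‖z‖ := norm_pos_iff.2 (by rintro rfl; exact h1 (map_zero _))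
    exact le_antisymm h2 ((inv_le_one₀ h0).1 h3)
  · intro h1
    refine ⟨?_, h1.le, by rw [h1, inv_one]⟩
    intro h2
    rw [map_eq_zero] at h2
    rw [h2, norm_zero] at h1
    exact zero_ne_one h1

theorem non_iff (h : PadicV p C VC) (z : ℚ_[p]) :
    algebraMap ℚ_[p] C z ∈ VC.nonunits ↔ ‖z‖ < 1 := by
  rw [ValuationSubring.mem_nonunits_iff_or, ← map_inv₀, h.norm, map_eq_zero, norm_inv]
  constructor
  · rintro (rfl | h1)
    · simp
    · by_contra h2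
      push Not at h2
      exact h1 (inv_le_one_of_one_le₀ h2)
  · intro h1
    rcases eq_or_ne z 0 with h0 | h0
    · exact Or.inl h0
    · right
      intro h2
      exact absurd ((inv_le_one₀ (norm_pos_iff.2 h0)).1 h2) (not_le.2 h1)

/-- a residue class different from the classes of finitely many elements -/
theorem exists_c {ι : Type} (A : Finset ι) (f : ι → ℚ_[p]) (hA : A.card < p)
    (hf : ∀ a ∈ A, ‖f a‖ ≤ 1) : ∃ c : ℕ, ∀ a ∈ A, ‖(c : ℚ_[p]) - f a‖ = 1 := by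
  by_contra hcon
  push Not at hcon
  choose g hgA hg using hcon
  have hc1 : ∀ c : ℕ, ‖(c : ℚ_[p])‖ ≤ 1 := fun c => by
    exact_mod_cast Padic.norm_int_le_one (p := p) (c : ℤ)
  have hlt : ∀ c : ℕ, ‖(c : ℚ_[p]) - f (g c)‖ < 1 := by
    intro c
    refine lt_of_le_of_ne ?_ (hg c)
    rw [sub_eq_add_neg]
    refine le_trans (Padic.nonarchimedean _ _) (max_le (hc1 c) ?_)
    rw [norm_neg]
    exact hf _ (hgA c)
  have h1 : A.card < (Finset.range p).card := by rwa [Finset.card_range]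
  obtain ⟨c, hc, c', hc', hne, hcc⟩ := Finset.exists_ne_map_eq_of_card_lt_of_maps_to h1
    (f := g) (fun c _ => hgA c)
  have h2 : ‖(((c : ℤ) - (c' : ℤ) : ℤ) : ℚ_[p])‖ < 1 := by
    have h3 : (((c : ℤ) - (c' : ℤ) : ℤ) : ℚ_[p]) =
        ((c : ℚ_[p]) - f (g c)) + (-((c' : ℚ_[p]) - f (g c'))) := by
      rw [hcc]; push_cast; ring
    rw [h3]
    refine lt_of_le_of_lt (Padic.nonarchimedean _ _) (max_lt (hlt c) ?_)
    rw [norm_neg]
    exact hlt c'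
  rw [Padic.norm_intCast_lt_one_iff] at h2
  rw [Finset.mem_range] at hc hc'
  obtain ⟨t, ht⟩ := h2
  apply hne
  have h3 : t = 0 := by
    by_contra h0
    have h4 : (p : ℤ) ≤ |(p : ℤ) * t| := by
      rw [abs_mul, Nat.abs_cast]
      have := Int.one_le_abs h0
      nlinarith
    rw [← ht] at h4
    have h5 : |(c : ℤ) - c'| < p := by
      rw [abs_lt]
      constructor <;> omega
    omega
  rw [h3] at ht
  omega

theorem norm_add_one {a b : ℚ_[p]} (ha : ‖a‖ < 1) (hb : ‖b‖ = 1) : ‖a + b‖ = 1 := by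
  rw [Padic.add_eq_max_of_ne (by rw [hb]; exact ne_of_lt ha), hb]
  exact max_eq_right ha.le

theorem norm_prod {ι : Type} (A : Finset ι) (u : ι → ℚ_[p]) (m : ι → ℕ) (d : ℚ_[p])
    (h : ∀ a ∈ A, ‖d - u a‖ = 1) : ‖∏ a ∈ A, (d - u a) ^ m a‖ = 1 := by
  rw [_root_.norm_prod]
  refine Finset.prod_eq_one fun a ha => ?_
  rw [norm_pow, h a ha, one_pow]

theorem norm_prod' {ι : Type} [DecidableEq ι] (A : Finset ι) (u : ι → ℚ_[p]) (m : ι → ℕ)
    (d : ℚ_[p]) (a₁ : ι) (h₁ : a₁ ∈ A) (h : ∀ a ∈ A, a ≠ a₁ → ‖d - u a‖ = 1) :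
    ‖∏ a ∈ A, (d - u a) ^ m a‖ = ‖d - u a₁‖ ^ m a₁ := by
  rw [← Finset.mul_prod_erase A _ h₁, norm_mul, norm_pow]
  have := norm_prod (A.erase a₁) u m d fun a ha =>
    h a (Finset.mem_of_mem_erase ha) (Finset.ne_of_mem_erase ha)
  rw [this, mul_one]

end

/-- `Ine` is closed under inverses -/
theorem Ine_inv {k κ : Type} [Field k] [Field κ] [Algebra k κ] {V : ValuationSubring κ}
    {σ : κ ≃ₐ[k] κ} (h : Ine V σ) : Ine V σ⁻¹ := by
  have h1 : Dec V σ⁻¹ := by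
    intro z
    have := h.1 (σ⁻¹ z)
    have h2 : σ (σ⁻¹ z) = z := by
      show (σ * σ⁻¹) z = z
      rw [mul_inv_cancel]; rfl
    rw [h2] at this
    exact this.symm
  refine ⟨h1, fun z hz => ?_⟩
  have h3 : σ⁻¹ z ∈ V := (h1 z).2 hz
  have h4 := h.2 _ h3
  have h2 : σ (σ⁻¹ z) = z := by
    show (σ * σ⁻¹) z = z
    rw [mul_inv_cancel]; rfl
  rw [h2] at h4
  have := neg_mem h4
  rwa [neg_sub] at this

section

variable {p : ℕ} [Fact p.Prime] {C : Type} [Field C] [Algebra ℚ_[p] C]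
  {VC : ValuationSubring C}

/-- an element `w` with `w ^ ℓ` a unit of `ℚ_p` is fixed by the inertia group -/
theorem fix_unit (h : PadicV p C VC) {ℓ : ℕ} [Fact ℓ.Prime] (hℓ : ℓ ≠ p) (w : C) (d : ℚ_[p])
    (hw : w ^ ℓ = algebraMap ℚ_[p] C d) (hd : ‖d‖ = 1) (τ : C ≃ₐ[ℚ_[p]] C) (hτ : Ine VC τ) :
    τ w = w := by
  have hℓ0 : 0 < ℓ := (Fact.out : ℓ.Prime).pos
  have hU : IsU VC (w ^ ℓ) := by rw [hw, isU_iff h]; exact hd
  have hw0 : w ≠ 0 := by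
    rintro rfl
    exact hU.1 (zero_pow hℓ0.ne')
  have hwV : w ∈ VC := by
    rcases VC.mem_or_inv_mem w with h1 | h1
    · exact h1
    · have h2 : w = w ^ ℓ * (w⁻¹) ^ (ℓ - 1) := by
        obtain ⟨n, rfl⟩ : ∃ n, ℓ = n + 1 := ⟨ℓ - 1, by omega⟩
        rw [Nat.add_sub_cancel, inv_pow, pow_succ, mul_comm (w ^ n), mul_assoc,
          mul_inv_cancel₀ (pow_ne_zero _ hw0), mul_one]
      rw [h2]
      exact mul_mem hU.2.1 (pow_mem h1 _)
  have hwV' : w⁻¹ ∈ VC := by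
    have h2 : w⁻¹ = (w ^ ℓ)⁻¹ * w ^ (ℓ - 1) := by
      obtain ⟨n, rfl⟩ : ∃ n, ℓ = n + 1 := ⟨ℓ - 1, by omega⟩
      rw [Nat.add_sub_cancel, pow_succ, mul_inv, mul_comm (w ^ n)⁻¹, mul_assoc,
        inv_mul_cancel₀ (pow_ne_zero _ hw0), mul_one]
    rw [h2]
    exact mul_mem hU.2.2 (pow_mem hwV _)
  have hm : IsU VC ((ℓ : ℕ) : C) := by
    have h1 : ((ℓ : ℕ) : C) = algebraMap ℚ_[p] C (ℓ : ℚ_[p]) := by rw [map_natCast]
    rw [h1, isU_iff h, Padic.norm_natCast_eq_one_iff]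
    exact ((Nat.coprime_primes (Fact.out : p.Prime) (Fact.out : ℓ.Prime)).2 hℓ.symm)
  have h1 : τ w / w = 1 := by
    refine Pool.Agent.Y748.PS.rou_eq_one hm ?_ ?_
    · rw [div_pow, ← map_pow, hw, AlgEquiv.commutes, div_self]
      rw [← hw]
      exact hU.1
    · have h2 : τ w / w - 1 = w⁻¹ * (τ w - w) := by
        field_simp
      rw [h2]
      exact Pool.Agent.Y748.PS.nu_mul hwV' (hτ.2 w hwV)
  rwa [div_eq_one_iff_eq hw0] at h1

/-- an element `w` with `w ^ ℓ` in `ℚ_p`, of valuation prime to `ℓ`, is moved by the inertia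
group -/
theorem move (h : PadicV p C VC) {ℓ : ℕ} [Fact ℓ.Prime] (hℓ : ℓ ≠ p) (w : C) (d : ℚ_[p])
    (hw : w ^ ℓ = algebraMap ℚ_[p] C d) (m : ℕ) (hm0 : 0 < m) (hmℓ : m < ℓ)
    (hd : ‖d‖ = ((p : ℝ) ^ (-(1 : ℤ))) ^ m) : ∃ τ : C ≃ₐ[ℚ_[p]] C, Ine VC τ ∧ τ w ≠ w := by
  haveI := h.closure
  letI : Algebra ℤ_[p] C := ((algebraMap ℚ_[p] C).comp (algebraMap ℤ_[p] ℚ_[p])).toAlgebra
  haveI : IsScalarTower ℤ_[p] ℚ_[p] C := IsScalarTower.of_algebraMap_eq fun _ => rfl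
  have hp0 : (p : ℚ_[p]) ≠ 0 := by exact_mod_cast (Fact.out : p.Prime).ne_zero
  have hB : Base ℓ ℤ_[p] ℚ_[p] C VC (p : ℤ_[p]) w (m : ℤ) := by
    refine ⟨?_, ?_, ?_, PadicInt.irreducible_p, ?_, ⟨d, hw⟩, ?_⟩
    · rw [PadicInt.isUnit_iff, PadicInt.norm_natCast_eq_one_iff]
      exact ((Nat.coprime_primes (Fact.out : p.Prime) (Fact.out : ℓ.Prime)).2 hℓ.symm)
    · intro a
      exact (h.norm _).2 a.2
    · intro a ha
      rw [IsLocalRing.mem_maximalIdeal, PadicInt.mem_nonunits] at ha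
      exact (non_iff h _).2 ha
    · intro h1
      have h2 := Int.le_of_dvd (by exact_mod_cast hm0) h1
      omega
    · have h1 : w ^ ℓ / algebraMap ℤ_[p] C (p : ℤ_[p]) ^ (m : ℤ) =
          algebraMap ℚ_[p] C (d / (p : ℚ_[p]) ^ m) := by
        rw [hw, map_div₀, map_pow, zpow_natCast]
        rfl
      rw [h1, isU_iff h, norm_div, hd, norm_pow, Padic.norm_p]
      have hp1 : (p : ℝ) ≠ 0 := by exact_mod_cast (Fact.out : p.Prime).ne_zero
      rw [zpow_neg, zpow_one]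
      exact div_self (pow_ne_zero _ (inv_ne_zero hp1))
  obtain ⟨-, τ, h1, h2, -⟩ := Pool.Agent.Y183.PS.tau Pool.Agent.Y183.PS.ine
    Pool.Agent.Y183.PS.fro ℓ ℤ_[p] ℚ_[p] C VC (p : ℤ_[p]) w (m : ℤ) hB
  exact ⟨τ, h1, h2⟩

end

end Pool.Agent.Y474.GT
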