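import Pool.Agent.Y474.GT.PW2

/-!
# Part PW of project GT: the core of the argument

(helper474, for helper157.)
-/

set_option autoImplicit false
set_option linter.all false

open Polynomial

namespace Pool.Agent.Y474.GT

open Pool.Agent.Y157.PS Pool.Agent.Y157.GT

/-- `IsU` and ring homomorphisms -/
theorem isU_comap {K L : Type} [Field K] [Field L] (f : K →+* L) (V : ValuationSubring L) (z : K) :
    IsU (V.comap f) z ↔ IsU V (f z) := by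
  unfold IsU
  rw [ValuationSubring.mem_comap, ValuationSubring.mem_comap, map_inv₀, ne_eq, ne_eq, map_eq_zero]

theorem nu_comap {K L : Type} [Field K] [Field L] (f : K →+* L) (V : ValuationSubring L) (z : K) :
    z ∈ (V.comap f).nonunits ↔ f z ∈ V.nonunits := by
  rw [ValuationSubring.mem_nonunits_iff_or, ValuationSubring.mem_nonunits_iff_or,
    ValuationSubring.mem_comap, map_inv₀, map_eq_zero]

section pair

variable {ℓ : ℕ} {κ₀ κ R₀ R M₀ M : Type} [Field κ₀] [Field κ] [Field R₀] [Field R]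
    [Field M₀] [Field M] [Algebra κ₀ κ] [Algebra κ₀ R₀] [Algebra R₀ M₀] [Algebra κ₀ M₀]
    [IsScalarTower κ₀ R₀ M₀] [Algebra κ R] [Algebra R M] [Algebra κ M] [IsScalarTower κ R M]
    {x₀ : R₀} {x : R} {B₀ : Finset κ₀} {B : Finset κ} {Y₀ : M₀} {Y : M} {ι : M₀ →+* M}

/-- restriction of a Gauss valuation ring -/
theorem gauss_pair (h : Pair ℓ κ₀ κ R₀ R M₀ M x₀ x B₀ B Y₀ Y ι) {V : ValuationSubring κ}
    {O : ValuationSubring M} (hO : Gauss V (algebraMap R M x) O) :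
    Gauss (V.comap (algebraMap κ₀ κ)) (algebraMap R₀ M₀ x₀) (O.comap ι) := by
  refine ⟨fun c => ?_, fun P hP hP1 => ?_⟩
  · rw [ValuationSubring.mem_comap, h.const, hO.1, ValuationSubring.mem_comap]
  · rw [isU_comap]
    have h1 : ι (aeval (algebraMap R₀ M₀ x₀) P) =
        aeval (algebraMap R M x) (P.map (algebraMap κ₀ κ)) := by
      rw [aeval_def, aeval_def, eval₂_map, Polynomial.hom_eval₂, h.var]
      congr 1
      ext c
      exact h.const c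
    rw [h1]
    refine hO.2 _ (fun n => ?_) ?_
    · rw [coeff_map]
      exact hP n
    · obtain ⟨n, hn⟩ := hP1
      refine ⟨n, ?_⟩
      rw [coeff_map, ← isU_comap]
      exact hn

/-- the automorphism of `M₀` induced by a map of `M` -/
theorem induced (h : Pair ℓ κ₀ κ R₀ R M₀ M x₀ x B₀ B Y₀ Y ι) (f : RingAut M)
    (hc : ∀ c : κ₀, f (algebraMap κ M (algebraMap κ₀ κ c)) = algebraMap κ M (algebraMap κ₀ κ c))
    (hx : f (algebraMap R M x) = algebraMap R M x) (h1 : ∀ z, ∃ z₁, f (ι z) = ι z₁)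
    (h2 : ∀ z, ∃ z₁, f⁻¹ (ι z) = ι z₁) :
    ∃ γ : M₀ ≃ₐ[R₀] M₀, ∀ z, f (ι z) = ι (γ z) := by
  choose g hg using h1
  choose g' hg' using h2
  have hff : ∀ z, f⁻¹ (f z) = z := fun z => by
    show (f⁻¹ * f) z = z
    rw [inv_mul_cancel]; rfl
  have hff' : ∀ z, f (f⁻¹ z) = z := fun z => by
    show (f * f⁻¹) z = z
    rw [mul_inv_cancel]; rfl
  have hR : ∀ r : R₀, f (ι (algebraMap R₀ M₀ r)) = ι (algebraMap R₀ M₀ r) := by
    let a : R₀ →+* M := (f : M →+* M).comp (ι.comp (algebraMap R₀ M₀))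
    let b : R₀ →+* M := ι.comp (algebraMap R₀ M₀)
    let S : IntermediateField κ₀ R₀ := (a.eqLocusField b).toIntermediateField (fun c => by
      show f (ι (algebraMap R₀ M₀ (algebraMap κ₀ R₀ c))) =
        ι (algebraMap R₀ M₀ (algebraMap κ₀ R₀ c))
      rw [← IsScalarTower.algebraMap_apply κ₀ R₀ M₀, h.const]
      exact hc c)
    have h3 : IntermediateField.adjoin κ₀ {x₀} ≤ S := by
      rw [IntermediateField.adjoin_simple_le_iff]
      show f (ι (algebraMap R₀ M₀ x₀)) = ι (algebraMap R₀ M₀ x₀)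
      rw [h.var]
      exact hx
    intro r
    have h4 : r ∈ S := by
      apply h3
      rw [h.cov₀.rat.gen]
      trivial
    exact h4
  let e : M₀ ≃+* M₀ :=
    { toFun := g
      invFun := g'
      left_inv := fun z => ι.injective (by rw [← hg', ← hg, hff])
      right_inv := fun z => ι.injective (by rw [← hg, ← hg', hff'])
      map_mul' := fun a b => ι.injective (by rw [← hg, map_mul, map_mul, map_mul, hg, hg])
      map_add' := fun a b => ι.injective (by rw [← hg, map_add, map_add, map_add, hg, hg]) }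
  refine ⟨AlgEquiv.ofRingEquiv (f := e) (fun r => ι.injective ?_), fun z => hg z⟩
  show ι (g (algebraMap R₀ M₀ r)) = _
  rw [← hg, hR]

/-- good reduction for the branch points -/
theorem good_pair (h : Pair ℓ κ₀ κ R₀ R M₀ M x₀ x B₀ B Y₀ Y ι) {V : ValuationSubring κ}
    (hV : Good (V.comap (algebraMap κ₀ κ)) B₀) : Good V B := by
  refine ⟨fun e he => ?_, fun e he e' he' hne => ?_⟩
  · obtain ⟨e₀, he₀, rfl⟩ := (h.branch e).1 he
    exact hV.1 e₀ he₀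
  · obtain ⟨e₀, he₀, rfl⟩ := (h.branch e).1 he
    obtain ⟨e₁, he₁, rfl⟩ := (h.branch e').1 he'
    rw [← map_sub, ← isU_comap]
    exact hV.2 e₀ he₀ e₁ he₁ (fun h => hne (by rw [h]))

end pair

/-- the section over a larger field -/
theorem sec_res {K K' κ R M : Type} [Field K] [Field K'] [Field κ] [Field R] [Field M]
    [Algebra K κ] [Algebra K' κ] [Algebra κ R] [Algebra R M] [Algebra κ M]
    [Algebra.IsAlgebraic K' κ] (h : ∀ a : K, ∃ b : K', algebraMap K' κ b = algebraMap K κ a)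
    {x : R} {Y : M} {s : (κ ≃ₐ[K] κ) →* RingAut M} (hs : Sec K κ R M x Y 1 s) :
    Sec K' κ R M x Y 1 (s.comp (resG h)) := by
  refine ⟨fun σ c => ?_, fun σ => ?_, fun σ => ?_, fun z => ?_⟩
  · exact hs.const (resG h σ) c
  · exact hs.fixx (resG h σ)
  · exact hs.fixy (resG h σ)
  · obtain ⟨E, hE, hEz⟩ := hs.cont z
    obtain ⟨E', hE', h'⟩ := cont_res h E
    exact ⟨E', hE', fun σ hσ => hEz _ (h' σ hσ)⟩

/-- the automorphisms attached to an element of the inertia group at two places -/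
theorem core (hPLC : S_PLC) (hUNI : S_UNI) {ℓ p : ℕ} [Fact ℓ.Prime] [Fact p.Prime] (hℓ : ℓ ≠ p)
    {k₁ K₁ κ₀ κ R₀ R M₀ M C : Type} [Field k₁] [CharZero k₁] [Field K₁] [CharZero K₁] [Field κ₀]
    [Algebra k₁ κ₀] [IsAlgClosure k₁ κ₀] [Field κ] [IsAlgClosed κ] [Algebra κ₀ κ] [Algebra k₁ κ]
    [IsScalarTower k₁ κ₀ κ] [Algebra k₁ K₁] [Algebra K₁ κ] [IsScalarTower k₁ K₁ κ]
    [Algebra.IsAlgebraic K₁ κ]
    [Field R₀] [Field R] [Field M₀] [Field M] [Algebra κ₀ R₀]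
    [Algebra R₀ M₀] [Algebra κ₀ M₀] [IsScalarTower κ₀ R₀ M₀] [Algebra κ R] [Algebra R M]
    [Algebra κ M] [IsScalarTower κ R M]
    {x₀ : R₀} {x : R} {B₀ : Finset κ₀} {B : Finset κ} {Y₀ : M₀} {Y : M} {ι : M₀ →+* M}
    (h : Pair ℓ κ₀ κ R₀ R M₀ M x₀ x B₀ B Y₀ Y ι)
    {s : (κ ≃ₐ[K₁] κ) →* RingAut M} (hs : Sec K₁ κ R M x Y 1 s)
    (hst : ∀ σ z₀, ∃ z₁, s σ (ι z₀) = ι z₁)
    [Field C] [Algebra ℚ_[p] C] {VC : ValuationSubring C} (hVC : PadicV p C VC)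
    (q : k₁ →+* ℚ_[p]) (j : κ₀ →+* C) (hj : ∀ c, j (algebraMap k₁ κ₀ c) = algebraMap ℚ_[p] C (q c))
    (q₀ : K₁ →+* ℚ_[p]) (J₀ : κ →+* C) (hJ₀ : ∀ c, J₀ (algebraMap K₁ κ c) = algebraMap ℚ_[p] C (q₀ c))
    (hj₀ : ∀ c, J₀ (algebraMap κ₀ κ c) = j c)
    (q₁ : K₁ →+* ℚ_[p]) (J₁ : κ →+* C) (hJ₁ : ∀ c, J₁ (algebraMap K₁ κ c) = algebraMap ℚ_[p] C (q₁ c))
    (hj₁ : ∀ c, J₁ (algebraMap κ₀ κ c) = j c)
    (hgood : Good (VC.comap j) B₀) (τ : C ≃ₐ[ℚ_[p]] C) (hτ : Ine VC τ) :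
    ∃ σ₀ σ₁ : κ ≃ₐ[K₁] κ, (∀ z, J₀ (σ₀ z) = τ (J₀ z)) ∧ (∀ z, J₁ (σ₁ z) = τ⁻¹ (J₁ z)) ∧
      (∀ c, (σ₀ * σ₁) (algebraMap κ₀ κ c) = algebraMap κ₀ κ c) ∧
      ∀ z₀, s (σ₀ * σ₁) (ι z₀) = ι z₀ := by
  haveI : IsAlgClosure K₁ κ := ⟨inferInstance, inferInstance⟩
  haveI : IsAlgClosed κ₀ := IsAlgClosure.isAlgClosed k₁
  haveI : Algebra.IsAlgebraic k₁ κ₀ := (inferInstance : IsAlgClosure k₁ κ₀).isAlgebraic
  have hc₀ : (VC.comap J₀).comap (algebraMap κ₀ κ) = VC.comap j := by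
    ext c
    rw [ValuationSubring.mem_comap, ValuationSubring.mem_comap, ValuationSubring.mem_comap, hj₀]
  have hc₁ : (VC.comap J₁).comap (algebraMap κ₀ κ) = VC.comap j := by
    ext c
    rw [ValuationSubring.mem_comap, ValuationSubring.mem_comap, ValuationSubring.mem_comap, hj₁]
  have hg₀ : Good (VC.comap J₀) B := good_pair h (by rw [hc₀]; exact hgood)
  have hg₁ : Good (VC.comap J₁) B := good_pair h (by rw [hc₁]; exact hgood)
  obtain ⟨O₀, hO₀, hp₀⟩ := hPLC ℓ p hℓ K₁ κ R M C VC hVC q₀ J₀ hJ₀ x B Y h.cov hg₀ s hs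
  obtain ⟨O₁, hO₁, hp₁⟩ := hPLC ℓ p hℓ K₁ κ R M C VC hVC q₁ J₁ hJ₁ x B Y h.cov hg₁ s hs
  obtain ⟨σ₀, hσ₀, hn₀⟩ := hp₀ τ hτ
  obtain ⟨σ₁, hσ₁, hn₁⟩ := hp₁ τ⁻¹ (Ine_inv hτ)
  have hττ : ∀ z, τ (τ⁻¹ z) = z := fun z => by
    show (τ * τ⁻¹) z = z
    rw [mul_inv_cancel]; rfl
  have hfix : ∀ c, (σ₀ * σ₁) (algebraMap κ₀ κ c) = algebraMap κ₀ κ c := by
    intro c
    obtain ⟨c', hc'⟩ := map_bot (k₁ := k₁) (κ₀ := κ₀) (σ₁ : κ ≃+* κ) (fun a => by
      show σ₁ (algebraMap k₁ κ a) = algebraMap k₁ κ a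
      rw [IsScalarTower.algebraMap_apply k₁ K₁ κ, AlgEquiv.commutes]) c
    have hc'' : σ₁ (algebraMap κ₀ κ c) = algebraMap κ₀ κ c' := hc'
    show σ₀ (σ₁ (algebraMap κ₀ κ c)) = _
    rw [hc'']
    apply J₀.injective
    rw [hσ₀, hj₀, hj₀]
    have h1 := hσ₁ (algebraMap κ₀ κ c)
    rw [hc'', hj₁, hj₁] at h1
    rw [h1, hττ]
  refine ⟨σ₀, σ₁, hσ₀, hσ₁, hfix, ?_⟩
  obtain ⟨hu, hf⟩ := hUNI ℓ p hℓ k₁ κ₀ R₀ M₀ C VC hVC q j hj x₀ B₀ Y₀ h.cov₀ hgood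
  have hG₀ : Gauss (VC.comap j) (algebraMap R₀ M₀ x₀) (O₀.comap ι) := by
    rw [← hc₀]; exact gauss_pair h hO₀
  have hG₁ : Gauss (VC.comap j) (algebraMap R₀ M₀ x₀) (O₁.comap ι) := by
    rw [← hc₁]; exact gauss_pair h hO₁
  have hO : O₀.comap ι = O₁.comap ι := hu _ _ hG₀ hG₁
  obtain ⟨γ, hγ⟩ := induced h (s (σ₀ * σ₁)) (fun c => by rw [hs.const, hfix]) (hs.fixx _)
    (hst _) (fun z => by rw [← map_inv]; exact hst _ z)
  have hγ1 : γ = 1 := by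
    refine hf _ hG₀ γ fun z hz => ?_
    obtain ⟨z₁, hz₁⟩ := hst σ₁ z
    have h1 : z₁ - z ∈ (O₁.comap ι).nonunits := by
      rw [nu_comap, map_sub, ← hz₁]
      refine hn₁ _ ?_
      rw [hO] at hz
      exact hz
    have hz1 : z₁ ∈ O₁.comap ι := by
      have h2 := Pool.Agent.Y748.PS.nu_mem h1
      have h3 := (O₁.comap ι).add_mem _ _ h2 (by rw [hO] at hz; exact hz)
      rwa [sub_add_cancel] at h3
    have h2 : γ z - z₁ ∈ (O₀.comap ι).nonunits := by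
      rw [nu_comap, map_sub, ← hγ, map_mul]
      show s σ₀ (s σ₁ (ι z)) - ι z₁ ∈ O₀.nonunits
      rw [hz₁]
      refine hn₀ _ ?_
      rw [← hO] at hz1
      exact hz1
    have h3 : γ z - z = (γ z - z₁) + (z₁ - z) := by ring
    rw [h3]
    refine add_mem h2 ?_
    rw [hO]
    exact h1
  intro z₀
  rw [hγ, hγ1]
  rfl

end Pool.Agent.Y474.GT
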